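import Pool.Agent.Q91.JC.Main
import Pool.Agent.Q53.JC.SD

set_option autoImplicit false

/-!
# Convergence in Jarnik's theorem fails on every affine subspace above the threshold

For all `d, m ≥ 1`, all `0 < s ≤ d` and every real `(d + 1) × m` matrix `A` with
`ω(A) > (m + s) / (d + 1 - s)` there are a strictly decreasing positive `ψ` with
`∑ ψ(q)^(m + s) q^(d - s) < ∞` and a `θ` for which `S_n(ψ, θ) ∩ L_A` has positive `s`-dimensional
Hausdorff measure.

Idea for `s < d`.  A good dual approximation `q₀` of `A` makes the points `v A`, `v` an integer vector of norm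
at most `V = |q₀| ^ ω'`, lie near a subgroup of the torus of codimension one, so there are many integer
points `u` with `u A` within `ψ = V ^ (-γ)` of an integer vector.  For fixed `ψ` choose the length `L ≤ V` for
which `#{|u| ≤ L} / L ^ s'` is maximal (in a norm adapted to a given ball): this gives a Hölder condition
for the distribution of these points at all scales.  The rational points `(P + p_u + θ) / (Q + u_0)` are then well distributed
in the given ball for a suitable base point `(Q, P)` and a suitable `θ` (an average over base points and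
`θ`), and all of them are good for the target `z = (Q, P + θ) A`.  Iterating over the nodes
of a tree, each node with its own scale, and shrinking `θ` and the target, gives a set of positive measure.
-/

namespace Pool.Agent.Results.MP_9bea5e_nt.ThresholdOptimal

open MeasureTheory
open Q91.JC

/-- **Main theorem** (the answer to Q1 is yes). -/
theorem result (d m : ℕ) (hd : 1 ≤ d) (hm : 1 ≤ m) (s : ℝ) (hs : 0 < s) (hsd : s ≤ d)
    (A : Matrix (Fin (d + 1)) (Fin m) ℝ)
    (hA : ((((m : ℝ) + s) / ((d : ℝ) + 1 - s) : ℝ) : EReal) < omegaExp A) :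
    ∃ (ψ : ℕ → ℝ) (θ : Fin (d + m) → ℝ), (∀ q, 0 < ψ q) ∧ StrictAnti ψ ∧
      Summable (fun q : ℕ => ψ q ^ ((m : ℝ) + s) * (q : ℝ) ^ ((d : ℝ) - s)) ∧
      0 < μH[s] (SS ψ θ ∩ LA A) :=
  main_of_sd (Pool.Agent.Q53.JC.sd gp) d m hd hm s hs hsd A hA

end Pool.Agent.Results.MP_9bea5e_nt.ThresholdOptimal
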